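import Pool.Agent.H87.EBK.Stmts2

set_option autoImplicit false

namespace Pool.EBK

theorem ADD_id (a b c1 u1 w1 c2 u2 w2 : ℚ) (h1 : u1 ^ 2 = a ^ 2 + c1 ^ 2)
    (h2 : w1 ^ 2 = b ^ 2 + c1 ^ 2) (h3 : u2 ^ 2 = a ^ 2 + c2 ^ 2) (h4 : w2 ^ 2 = b ^ 2 + c2 ^ 2) :
    (c1 * c2 * u1 * u2 - a ^ 2 * w1 * w2) ^ 2 + a ^ 2 * (c2 * w2 * u1 + c1 * w1 * u2) ^ 2 =
      (u1 ^ 2 * u2 ^ 2 - a ^ 4 + a ^ 2 * b ^ 2) ^ 2 := by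
  have e : (c1 * c2 * u1 * u2 - a ^ 2 * w1 * w2) ^ 2 + a ^ 2 * (c2 * w2 * u1 + c1 * w1 * u2) ^ 2 =
      c1 ^ 2 * c2 ^ 2 * u1 ^ 2 * u2 ^ 2 + a ^ 4 * w1 ^ 2 * w2 ^ 2 +
        a ^ 2 * (c2 ^ 2 * w2 ^ 2 * u1 ^ 2 + c1 ^ 2 * w1 ^ 2 * u2 ^ 2) := by ring
  rw [e, h1, h2, h3, h4]
  ring

theorem ADD_id2 (a b c1 u1 w1 c2 u2 w2 : ℚ) (h1 : u1 ^ 2 = a ^ 2 + c1 ^ 2)
    (h2 : w1 ^ 2 = b ^ 2 + c1 ^ 2) (h3 : u2 ^ 2 = a ^ 2 + c2 ^ 2) (h4 : w2 ^ 2 = b ^ 2 + c2 ^ 2) :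
    (c1 * c2 * u1 * u2 - a ^ 2 * w1 * w2) ^ 2 + b ^ 2 * (c2 * w2 * u1 + c1 * w1 * u2) ^ 2 =
      (u1 * u2 * w1 * w2 - (a ^ 2 - b ^ 2) * c1 * c2) ^ 2 := by
  have e : (c1 * c2 * u1 * u2 - a ^ 2 * w1 * w2) ^ 2 + b ^ 2 * (c2 * w2 * u1 + c1 * w1 * u2) ^ 2 -
      (u1 * u2 * w1 * w2 - (a ^ 2 - b ^ 2) * c1 * c2) ^ 2 =
      c1 ^ 2 * c2 ^ 2 * u1 ^ 2 * u2 ^ 2 + a ^ 4 * w1 ^ 2 * w2 ^ 2 +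
        b ^ 2 * (c2 ^ 2 * w2 ^ 2 * u1 ^ 2 + c1 ^ 2 * w1 ^ 2 * u2 ^ 2)
        - u1 ^ 2 * u2 ^ 2 * w1 ^ 2 * w2 ^ 2 - (a ^ 2 - b ^ 2) ^ 2 * c1 ^ 2 * c2 ^ 2 := by ring
  have e2 : c1 ^ 2 * c2 ^ 2 * u1 ^ 2 * u2 ^ 2 + a ^ 4 * w1 ^ 2 * w2 ^ 2 +
        b ^ 2 * (c2 ^ 2 * w2 ^ 2 * u1 ^ 2 + c1 ^ 2 * w1 ^ 2 * u2 ^ 2)
        - u1 ^ 2 * u2 ^ 2 * w1 ^ 2 * w2 ^ 2 - (a ^ 2 - b ^ 2) ^ 2 * c1 ^ 2 * c2 ^ 2 = 0 := by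
    rw [h1, h2, h3, h4]
    ring
  linarith

theorem add : ADD := by
  intro a b c u w c' u' w' ha hb h h' hN
  obtain ⟨hc, hu, hw, hu2, hw2⟩ := h
  obtain ⟨hc', hu', hw', hu2', hw2'⟩ := h'
  have hM : 0 < MU c u w c' u' w' := by
    unfold MU
    positivity
  have h1 := ADD_id a b c u w c' u' w' hu2 hw2 hu2' hw2'
  have h2 := ADD_id2 a b c u w c' u' w' hu2 hw2 hu2' hw2'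
  refine ⟨hM, ?_⟩
  have hM0 : MU c u w c' u' w' ≠ 0 := hM.ne'
  have e1 : a ^ 2 + (NU a c u w c' u' w' / MU c u w c' u' w') ^ 2 =
      ((u ^ 2 * u' ^ 2 - a ^ 4 + a ^ 2 * b ^ 2) / MU c u w c' u' w') ^ 2 := by
    rw [div_pow, div_pow, ← h1]
    field_simp
    unfold NU MU
    ring
  have e2 : b ^ 2 + (NU a c u w c' u' w' / MU c u w c' u' w') ^ 2 =
      ((u * u' * w * w' - (a ^ 2 - b ^ 2) * c * c') / MU c u w c' u' w') ^ 2 := by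
    rw [div_pow, div_pow, ← h2]
    field_simp
    unfold NU MU
    ring
  exact ⟨div_pos hN hM, ⟨_, by rw [e1, sq]⟩, ⟨_, by rw [e2, sq]⟩⟩

end Pool.EBK
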