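import Pool.Agent.H87.EBK.Stmts2

set_option autoImplicit false

namespace Pool.EBK

theorem TVL_aux (x y z : ℚ) (hx : 0 < x) (hy : 0 < y) (hz : 0 < z) (h : z ^ 2 = x ^ 2 + y ^ 2)
    (hlt : v x < v y) : v z = v x := by
  have hx2 : v (x ^ 2) = 2 * v x := by
    simp
  have hy2 : v (y ^ 2) = 2 * v y := by
    simp
  have hz2 : v (z ^ 2) = 2 * v z := by
    simp
  have h1 : v (x ^ 2 + y ^ 2) = v (x ^ 2) :=
    padicValRat.add_eq_of_lt (p := 2) (by positivity) (by positivity) (by positivity) (by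
      change v (x ^ 2) < v (y ^ 2)
      rw [hx2, hy2]
      omega)
  rw [← h, hz2, hx2] at h1
  omega

theorem tvl : TVL := by
  intro a b c u w ha hb h
  obtain ⟨hc, hu, hw, hu2, hw2⟩ := h
  refine ⟨fun h => ?_, fun h => ?_, fun h => ?_, fun h => ?_⟩
  · exact TVL_aux c a u hc ha hu (by rw [hu2, add_comm]) h
  · exact TVL_aux a c u ha hc hu hu2 h
  · exact TVL_aux c b w hc hb hw (by rw [hw2, add_comm]) h
  · exact TVL_aux b c w hb hc hw hw2 h

end Pool.EBK
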